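import Pool.Agent.Y142.SI.Stm
import Pool.Agent.Y142.ZI.Fields

/-!
# Project Y142-SI, task EF: the field of coefficients is contained in the splitting fields (helper421)
-/

set_option autoImplicit false

open Matrix Polynomial Filter Topology NumberField IsDedekindDomain
open Pool.Agent.Y142.ZO Pool.Agent.Y142.ZI
open Pool.Agent.Y142.SS (S_LOC)
open Pool.Agent.Y142.SI (S_EF)

namespace Pool.Agent.Y421.SI.EF

/-- eigenspaces of a matrix with separable characteristic polynomial -/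
theorem eig_one {K : Type*} [Field K] {N : ℕ} (g : Matrix (Fin N) (Fin N) K)
    (hsep : g.charpoly.Separable) (y : K) {e v : Fin N → K} (he : e ≠ 0) (h1 : g *ᵥ e = y • e)
    (h2 : g *ᵥ v = y • v) : ∃ c : K, v = c • e := by
  have hfin : Module.finrank K (Module.End.eigenspace (Matrix.toLin' g) y) ≤ 1 := by
    refine (LinearMap.finrank_eigenspace_le (Matrix.toLin' g) y).trans ?_
    rw [Matrix.charpoly_toLin']
    exact rootMultiplicity_le_one_of_separable hsep y
  rw [finrank_le_one_iff] at hfin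
  obtain ⟨w, hw⟩ := hfin
  have me : e ∈ Module.End.eigenspace (Matrix.toLin' g) y := by
    rw [Module.End.mem_eigenspace_iff, Matrix.toLin'_apply]
    exact h1
  have mv : v ∈ Module.End.eigenspace (Matrix.toLin' g) y := by
    rw [Module.End.mem_eigenspace_iff, Matrix.toLin'_apply]
    exact h2
  obtain ⟨a, ha⟩ := hw ⟨e, me⟩
  obtain ⟨b, hb⟩ := hw ⟨v, mv⟩
  have ha' : a • (w : Fin N → K) = e := congrArg Subtype.val ha
  have hb' : b • (w : Fin N → K) = v := congrArg Subtype.val hb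
  have ha0 : a ≠ 0 := by
    rintro rfl
    rw [zero_smul] at ha'
    exact he ha'.symm
  refine ⟨b * a⁻¹, ?_⟩
  rw [← ha', smul_smul, mul_assoc, inv_mul_cancel₀ ha0, mul_one, hb']

/-- eigenvectors -/
theorem exists_eig {K : Type*} [Field K] {N : ℕ} (g : Matrix (Fin N) (Fin N) K) (y : K)
    (hy : g.charpoly.eval y = 0) : ∃ e : Fin N → K, e ≠ 0 ∧ g *ᵥ e = y • e := by
  rw [Matrix.eval_charpoly] at hy
  obtain ⟨e, he, h⟩ := Matrix.exists_mulVec_eq_zero_iff.2 hy
  refine ⟨e, he, ?_⟩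
  rw [Matrix.sub_mulVec, sub_eq_zero] at h
  rw [← h, Matrix.scalar_apply]
  ext i
  rw [Matrix.mulVec_diagonal, Pi.smul_apply, smul_eq_mul]

/-- the character on an eigenvector -/
theorem exists_char {E K : Type*} [Field E] [Field K] {N : ℕ} (g : Matrix (Fin N) (Fin N) K)
    (hsep : g.charpoly.Separable) (y : K) {e : Fin N → K} (he : e ≠ 0) (h1 : g *ᵥ e = y • e)
    (ε : E →+* Matrix (Fin N) (Fin N) K) (hε : ∀ a, ε a * g = g * ε a) :
    ∃ χ : E →+* K, ∀ a, ε a *ᵥ e = χ a • e := by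
  have h : ∀ a, ∃ c : K, ε a *ᵥ e = c • e := by
    intro a
    refine eig_one g hsep y he h1 ?_
    rw [Matrix.mulVec_mulVec, ← hε, ← Matrix.mulVec_mulVec, h1, Matrix.mulVec_smul]
  choose χ hχ using h
  have hinj : ∀ c d : K, c • e = d • e → c = d := fun c d hcd => smul_left_injective K he hcd
  refine ⟨{ toFun := χ
            map_one' := ?_
            map_mul' := ?_
            map_zero' := ?_
            map_add' := ?_ }, hχ⟩
  · apply hinj
    rw [← hχ, map_one, Matrix.one_mulVec, one_smul]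
  · intro a b
    apply hinj
    rw [← hχ, map_mul, ← Matrix.mulVec_mulVec, hχ b, Matrix.mulVec_smul, hχ a, smul_smul,
      mul_comm]
  · apply hinj
    rw [← hχ, map_zero, Matrix.zero_mulVec, zero_smul]
  · intro a b
    apply hinj
    rw [← hχ, map_add, Matrix.add_mulVec, hχ a, hχ b, add_smul]

/-- two embeddings of a normal extension have the same image -/
theorem same_image {L Ω : Type*} [Field L] [Field Ω] [Algebra ℚ L] [CharZero Ω]
    (E : IntermediateField ℚ L) (hN : Normal ℚ E) (ι : L →+* Ω) (χ : E →+* Ω) (a : E) :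
    ∃ a' : E, χ a' = ι a := by
  have hspl : ((minpoly ℚ a).map (algebraMap ℚ E)).Splits := hN.splits a
  have hint : IsIntegral ℚ a := hN.isIntegral a
  have hne : (minpoly ℚ a).map (algebraMap ℚ E) ≠ 0 :=
    (Polynomial.map_ne_zero_iff (algebraMap ℚ E).injective).2 (minpoly.ne_zero hint)
  have hroot : (((minpoly ℚ a).map (algebraMap ℚ E)).map χ).IsRoot (ι (a : L)) := by
    have h1 : (ι.comp (algebraMap E L)).comp (algebraMap ℚ E) = χ.comp (algebraMap ℚ E) :=
      Subsingleton.elim _ _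
    rw [Polynomial.IsRoot.def, Polynomial.map_map, ← h1, Polynomial.eval_map]
    have h2 : ι (a : L) = (ι.comp (algebraMap E L)) a := rfl
    rw [h2, ← Polynomial.hom_eval₂, ← Polynomial.aeval_def, minpoly.aeval, map_zero]
  obtain ⟨a', ha'⟩ := hspl.mem_range_of_isRoot hne hroot
  exact ⟨a', ha'⟩

theorem t (h : S_LOC) : S_EF := by
  intro E hEf hEn Q hQm hQs hQd hex σ0 hσ0 a ha
  obtain ⟨b, hb⟩ := hex
  have := Lf_finite Q
  have := hEf
  obtain ⟨ℓ, hℓb, hℓ, ι, τ, σ, -, hτ, hσ⟩ :=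
    h (E ⊔ Lf Q) (IntermediateField.finiteDimensional_sup _ _) σ0 b
  obtain ⟨N, g, ε, hg, hε⟩ := hb ℓ hℓb hℓ
  -- a root
  obtain ⟨x, hx⟩ : ∃ x : QQ, aeval x Q = 0 :=
    IsAlgClosed.exists_aeval_eq_zero QQ Q (natDegree_pos_iff_degree_pos.1 hQd).ne'
  have hxM : x ∈ E ⊔ Lf Q := (le_sup_right : Lf Q ≤ E ⊔ Lf Q) (mem_Lf hQm.ne_zero hx)
  have hτx : τ (ι x) = ι x := by rw [hτ, hσ x hxM, hσ0 x hx]
  obtain ⟨j, hj⟩ : ∃ j : ℚ_[ℓ] →+* AlgebraicClosure ℚ_[ℓ], j = algebraMap _ _ := ⟨_, rfl⟩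
  have hτj : ∀ c : ℚ_[ℓ], τ (j c) = j c := fun c => by rw [hj]; exact τ.commutes c
  obtain ⟨g', hg'⟩ : ∃ g', g' = j.mapMatrix g := ⟨_, rfl⟩
  have hcp : g'.charpoly = (Q.map (algebraMap ℚ ℚ_[ℓ])).map j := by
    rw [hg', RingHom.mapMatrix_apply, Matrix.charpoly_map, hg]
  have hsep : g'.charpoly.Separable := by
    rw [hcp]
    exact (hQs.map).map
  have hroot : g'.charpoly.eval (ι x) = 0 := by
    have h1 : j.comp (algebraMap ℚ ℚ_[ℓ]) = ι.comp (algebraMap ℚ QQ) := Subsingleton.elim _ _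
    rw [hcp, Polynomial.map_map, h1, Polynomial.eval_map, ← Polynomial.hom_eval₂,
      ← Polynomial.aeval_def, hx, map_zero]
  obtain ⟨e, he, hge⟩ := exists_eig g' (ι x) hroot
  obtain ⟨χ, hχ⟩ := exists_char g' hsep (ι x) he hge (j.mapMatrix.comp ε) (by
    intro c
    rw [hg', RingHom.comp_apply, ← map_mul, ← map_mul, hε])
  -- the conjugate eigenvector
  have hτv : ∀ (A : Matrix (Fin N) (Fin N) ℚ_[ℓ]) (v : Fin N → AlgebraicClosure ℚ_[ℓ]),
      j.mapMatrix A *ᵥ (fun i => τ (v i)) = fun i => τ ((j.mapMatrix A *ᵥ v) i) := by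
    intro A v
    ext i
    simp only [Matrix.mulVec, dotProduct, map_sum, map_mul, RingHom.mapMatrix_apply,
      Matrix.map_apply, hτj]
  obtain ⟨e', he'⟩ : ∃ e' : Fin N → AlgebraicClosure ℚ_[ℓ], e' = fun i => τ (e i) := ⟨_, rfl⟩
  have he'0 : e' ≠ 0 := by
    intro h0
    apply he
    ext i
    have h1 := congrFun h0 i
    rw [he'] at h1
    exact (map_eq_zero τ).1 h1
  have hge' : g' *ᵥ e' = ι x • e' := by
    rw [he', hg', hτv, ← hg', hge]
    ext i
    rw [Pi.smul_apply, Pi.smul_apply, smul_eq_mul, smul_eq_mul, map_mul, hτx]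
  obtain ⟨c, hc⟩ := eig_one g' hsep (ι x) he hge hge'
  have hfix : ∀ d : E, τ (χ d) = χ d := by
    intro d
    have h1 : j.mapMatrix (ε d) *ᵥ e' = τ (χ d) • e' := by
      have h2 := hχ d
      rw [RingHom.comp_apply] at h2
      rw [he', hτv, h2]
      ext i
      rw [Pi.smul_apply, Pi.smul_apply, smul_eq_mul, smul_eq_mul, map_mul]
    have h3 : j.mapMatrix (ε d) *ᵥ e' = χ d • e' := by
      have h2 := hχ d
      rw [RingHom.comp_apply] at h2
      rw [hc, Matrix.mulVec_smul, h2, smul_comm]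
    exact smul_left_injective _ he'0 (h1.symm.trans h3)
  obtain ⟨a', ha'⟩ := same_image E hEn ι χ ⟨a, ha⟩
  have haM : a ∈ E ⊔ Lf Q := (le_sup_left : E ≤ E ⊔ Lf Q) ha
  have h5 : ι (σ a) = ι a := by
    rw [← hτ]
    have h6 := hfix a'
    rw [ha'] at h6
    exact h6
  rw [← hσ a haM]
  exact ι.injective h5

end Pool.Agent.Y421.SI.EF
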